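import Pool.Agent.Helper84.T5g.Pair

/-!
# T5g, line 5 (pairs above the joint front, given main vectors): definitions

`LabH` = the labels (pairs of joint vectors) of the hits with given main vectors; `LabJ` = the labels
which satisfy the congruence of the joint level.  `LabC` = the count of labels.
-/

set_option autoImplicit false

namespace Pool.Agent.Helper87.OUT2g

open Finset Pool.Agent.Helper84.T5g Pool.Agent.Helper27.T4
open Pool.Agent.Helper5.ET (av pr)
open Pool.Agent.Helper37.T5g (Sq)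

/-- labels of the hits with given main vectors -/
noncomputable def LabH (m : Sq) (k l l' : ℕ) (w : Key → ℕ) (n : ℕ) (z z' : Fin 3 → ℕ) :
    Finset ((JF → ℕ) × (JF → ℕ)) :=
  ((Hts m k l l' w n).filter
    (fun q => (∀ f, q.1.1.1 (Sum.inl f) = z f) ∧ ∀ f, q.2.1.1 (Sum.inl f) = z' f)).image
    (fun q => (q.1.1.1, q.2.1.1))

/-- labels with given main vectors which satisfy the congruence of the joint level -/
noncomputable def LabJ (m : Sq) (k l l' : ℕ) (w : Key → ℕ) (n : ℕ) (z z' : Fin 3 → ℕ) :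
    Finset ((JF → ℕ) × (JF → ℕ)) :=
  (XJ m k l ×ˢ XJ m k l').filter (fun q => (∀ f, q.1 (Sum.inl f) = z f) ∧
    (∀ f, q.2 (Sum.inl f) = z' f) ∧
    c0 m k l w q.1 + c0 m k l' w q.2 ≡ n [MOD Jn m k (sL m k l) l'])

/-- the number of labels -/
def LabC (m : Sq) (k : ℕ) (l l' : ℕ) (w : Key → ℕ) (c : ℕ) : Prop :=
  ∃ (n : ℕ) (z z' : Fin 3 → ℕ), c = (LabH m k l l' w n z z').card

/-- the bound for the number of labels -/
noncomputable def LB (m : Sq) (k l l' : ℕ) : ℕ :=
  ∏ i : Fin 4, (2 * pJ k (sL m k l) (Sum.inr i) ^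
    ((aJ m k (sL m k l) l (Sum.inr i) - aJ m k (sL m k l) l' (Sum.inr i)) / 2 + 3))

/-- the modulus of the main digits below the state `l` -/
noncomputable def Nm (m : Sq) (k l : ℕ) : ℕ := NN pr (av (mL m k l))

/-- the later main modulus exceeds the elements of the earlier state -/
def Vd (m : Sq) (k l' l : ℕ) : Prop :=
  Pool.Agent.Helper30.T5g.NL m k (l' + 1) ≤ Nm m k l

end Pool.Agent.Helper87.OUT2g
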