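import Pool.Agent.Helper87.OUT2.Core
import Pool.Agent.Helper87.OUT2g.Defs
import Pool.Agent.Helper44.T5g.Facts
import Pool.Agent.Helper54.T5g.KeysOf
import Pool.Agent.Helper27.T5g.Range

/-!
# T5g, line 5: the outermost static level as a level with outer keys; decomposition of the hits
-/

set_option autoImplicit false

namespace Pool.Agent.Helper87.OUT2g

open Pool.Agent.Helper87.OUT2 (OSide Hit Dj vals card_vals out_bound)
open Finset Pool.Agent.Helper84.T5g Pool.Agent.Helper57.T5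
open Pool.Agent.Helper37.T5g Pool.Agent.Helper39.T5
open Pool.Agent.Helper5.ET (bb mask)
open Pool.Agent.Helper30.T5g (QF QT RT PZ ez NL)
open Pool.Agent.Helper22.HW hiding comb
open Pool.Agent.Helper30.T5g (pz)
open Pool.Agent.Helper27.T4 (NN)

variable {m : Sq} {k : ℕ}

/-- front of the outermost static level -/
noncomputable def M0 (m : Sq) (k l : ℕ) : ℕ := FF m k l (0 + 1) * LL (QQ m k (sL m k l)) 0

theorem M0_eq (m : Sq) (k l : ℕ) : M0 m k l = FF m k l 1 := by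
  unfold M0
  rw [LL_zero, mul_one]

/-- the tables of the outermost static level (`s` = number of split levels, `F` = front) -/
noncomputable def oS (m : Sq) (k s l F : ℕ) : OSide (pz k s) Key (JF → ℕ) :=
  ⟨F, zf m k s, fun o f y => Key.S l 0 f o (mask (univ.filter (fun g => g < f)) y)⟩

theorem cs_eq {s l : ℕ} (hs : sL m k l = s) (w : Key → ℕ) (o : JF → ℕ) (y : Fin 3 → ℕ) :
    cs m k l 0 w o y =
      ((oS m k s l (M0 m k l)).sd o).cd (pz_prime k s) (pz_inj k s) w y := by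
  subst hs
  rfl

theorem oS_ok {s l : ℕ} (hs : sL m k l = s) :
    (oS m k s l (M0 m k l)).Ok Pool.Agent.Helper22.SL.rk3 (Mk m k) := by
  subst hs
  refine ⟨fun o => Pool.Agent.Helper44.T5g.Ss_ok (t := 0) (Nat.zero_le _) (Nat.zero_le _) o, ?_⟩
  intro o o' i i' y y' h
  have h' : Key.S l 0 i o (mask (univ.filter (fun g => g < i)) y) =
    Key.S l 0 i' o' (mask (univ.filter (fun g => g < i')) y') := h
  injection h'

/-! ## the window values -/

/-- number of the window values below the outermost static level -/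
noncomputable def BW (m : Sq) (k l : ℕ) : ℕ :=
  18 * NL m k l / (Jn m k (sL m k l) l * QQ m k (sL m k l) 0) + 1

/-- the window values below the outermost static level -/
noncomputable def BS (m : Sq) (k l : ℕ) : Finset ℕ :=
  (range (BW m k l)).image (fun j => j * (Jn m k (sL m k l) l * QQ m k (sL m k l) 0))

theorem card_BS (m : Sq) (k l : ℕ) : (BS m k l).card ≤ BW m k l := by
  unfold BS
  exact card_image_le.trans (by rw [card_range])

theorem D0_pos (m : Sq) (k l : ℕ) : 0 < Jn m k (sL m k l) l * QQ m k (sL m k l) 0 :=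
  Nat.mul_pos (Pool.Agent.Helper44.T5g.Jn_pos _ _ _ _) (Pool.Agent.Helper44.T5g.QQ_pos _ _ _ _)

theorem mem_BS {l b : ℕ} (h1 : Jn m k (sL m k l) l * QQ m k (sL m k l) 0 ∣ b)
    (h2 : b < 17 * NL m k l) : b ∈ BS m k l := by
  unfold BS
  rw [mem_image]
  obtain ⟨j, rfl⟩ := h1
  refine ⟨j, ?_, mul_comm _ _⟩
  rw [mem_range]
  unfold BW
  rw [Nat.lt_succ_iff, Nat.le_div_iff_mul_le (D0_pos m k l), mul_comm]
  omega

/-- the part of an element below the outermost static level -/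
noncomputable def inr0 (m : Sq) (k l : ℕ) (w : Key → ℕ) (q : Par m k l) (i0 : Fin (rL m k l)) : ℕ :=
  (∑ t ∈ univ.erase i0, cs m k l t w (okey m k l t q.1.1) (q.1.2 t)) + q.2

theorem val_split {l : ℕ} (hr : 0 < rL m k l) (w : Key → ℕ) (q : Par m k l) :
    val m k l w q = (c0 m k l w q.1.1 + cs m k l 0 w (okey m k l 0 q.1.1) (q.1.2 ⟨0, hr⟩)) +
      inr0 m k l w q ⟨0, hr⟩ := by
  unfold Pool.Agent.Helper84.T5g.val el inr0
  rw [← Finset.add_sum_erase univ _ (mem_univ (⟨0, hr⟩ : Fin (rL m k l)))]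
  simp only
  ring

theorem inr0_dvd (hm : m.Ok) {l : ℕ} (hr : 0 < rL m k l) (w : Key → ℕ) {q : Par m k l}
    (hq : q ∈ Pm m k l w) :
    Jn m k (sL m k l) l * QQ m k (sL m k l) 0 ∣ inr0 m k l w q ⟨0, hr⟩ := by
  have hL1 : LL (QQ m k (sL m k l)) 1 = QQ m k (sL m k l) 0 := by
    rw [LL_succ, LL_zero, one_mul]
  unfold inr0
  refine dvd_add (Finset.dvd_sum (fun t ht => ?_)) ?_
  · have ht0 : (t : ℕ) ≠ 0 := by
      intro h
      exact (ne_of_mem_erase ht) (Fin.ext h)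
    refine dvd_trans ?_ (Pool.Agent.Helper44.T5g.dvd_cs m k l t w _ _)
    rw [← hL1]
    refine mul_dvd_mul ?_ (LL_dvd _ (by omega))
    exact Pool.Agent.Helper44.T5g.Jn_dvd m k (sL m k l)
      (Pool.Agent.Helper27.T5g.ef_bounds hm k l (t + 1)).1.le
  · unfold Pm at hq
    rw [mem_product, mem_image] at hq
    obtain ⟨_, v, _, hv⟩ := hq
    rw [← hv]
    refine Dvd.dvd.mul_right ?_ v
    unfold Un
    rw [← hL1]
    exact mul_dvd_mul dvd_rfl (LL_dvd _ (by omega))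

/-- the codes of all levels are in the ranges -/
def Rg (m : Sq) (k l : ℕ) (w : Key → ℕ) : Prop := ∀ a ∈ AA m k l w, a < 17 * NL m k l

theorem val_mem {l : ℕ} {w : Key → ℕ} {q : Par m k l} (hq : q ∈ Pm m k l w) :
    val m k l w q ∈ AA m k l w := by
  rw [AA_eq]
  exact mem_image_of_mem _ hq

theorem inr0_mem (hm : m.Ok) {l : ℕ} (hr : 0 < rL m k l) {w : Key → ℕ} (hw : Rg m k l w)
    {q : Par m k l} (hq : q ∈ Pm m k l w) : inr0 m k l w q ⟨0, hr⟩ ∈ BS m k l := by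
  refine mem_BS (inr0_dvd hm hr w hq) ?_
  have h1 := hw _ (val_mem hq)
  rw [val_split hr] at h1
  omega

/-! ## hits -/

/-- the static vectors of the outermost level -/
noncomputable def Y0 (m : Sq) (k s : ℕ) : Finset (Fin 3 → ℕ) :=
  Pool.Agent.Helper99.T5g.TTc (pz k s) (zf m k s)

theorem Y0_subset (m : Sq) (k s : ℕ) : Y0 m k s ⊆ TT (pz k s) (zf m k s) :=
  Pool.Agent.Helper99.T5g.TTc_subset _ _

theorem Ys_eq {s l : ℕ} (hs : sL m k l = s) : Ys m k l 0 = Y0 m k s := by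
  subst hs
  rfl

/-- labels with the vectors of the outermost level and window values -/
abbrev HT : Type := ((JF → ℕ) × (JF → ℕ)) × (((Fin 3 → ℕ) × (Fin 3 → ℕ)) × (ℕ × ℕ))

/-- the target of a label -/
noncomputable def Xg (m : Sq) (k l l' : ℕ) (w : Key → ℕ) (n : ℕ) (g : (JF → ℕ) × (JF → ℕ)) : ℕ :=
  n - (c0 m k l w g.1 + c0 m k l' w g.2)

/-- a hit of the outermost level -/
noncomputable def HitG (m : Sq) (k s l l' : ℕ) (w0 : Key → ℕ) (n : ℕ) (w : Key → ℕ) (t : HT) : Prop :=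
  Hit (pz_prime k s) (pz_inj k s) (oS m k s l (M0 m k l)) (oS m k s l' (M0 m k l'))
    (fun g : (JF → ℕ) × (JF → ℕ) => okey m k l 0 g.1) (fun g => okey m k l' 0 g.2)
    (Xg m k l l' w0 n) w t

/-- the data of a hit at the outermost level -/
noncomputable def dat (m : Sq) (k l l' : ℕ) (w : Key → ℕ) (hr : 0 < rL m k l) (hr' : 0 < rL m k l')
    (q : Par m k l × Par m k l') : HT :=
  ((q.1.1.1, q.2.1.1), ((q.1.1.2 ⟨0, hr⟩, q.2.1.2 ⟨0, hr'⟩),
    (inr0 m k l w q.1 ⟨0, hr⟩, inr0 m k l' w q.2 ⟨0, hr'⟩)))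

theorem dat_spec (hm : m.Ok) {s l l' n : ℕ} (hs : sL m k l = s) (hs' : sL m k l' = s)
    (hr : 0 < rL m k l) (hr' : 0 < rL m k l') {w : Key → ℕ} (hw : Rg m k l w)
    (hw' : Rg m k l' w) {q : Par m k l × Par m k l'} (hq : q ∈ Hts m k l l' w n) :
    (dat m k l l' w hr hr' q).2 ∈ (Y0 m k s ×ˢ Y0 m k s) ×ˢ (BS m k l ×ˢ BS m k l') ∧
      HitG m k s l l' w n w (dat m k l l' w hr hr' q) := by
  unfold Hts at hq
  rw [mem_filter, mem_product] at hq
  obtain ⟨⟨h1, h2⟩, h3⟩ := hq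
  have hy : q.1.1.2 ⟨0, hr⟩ ∈ Ys m k l 0 := by
    unfold Pm at h1
    rw [mem_product, mem_product, Fintype.mem_piFinset] at h1
    exact h1.1.2 ⟨0, hr⟩
  have hy' : q.2.1.2 ⟨0, hr'⟩ ∈ Ys m k l' 0 := by
    unfold Pm at h2
    rw [mem_product, mem_product, Fintype.mem_piFinset] at h2
    exact h2.1.2 ⟨0, hr'⟩
  rw [Ys_eq hs] at hy
  rw [Ys_eq hs'] at hy'
  refine ⟨?_, ?_⟩
  · rw [mem_product, mem_product, mem_product]
    exact ⟨⟨hy, hy'⟩, inr0_mem hm hr hw h1, inr0_mem hm hr' hw' h2⟩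
  · rw [val_split hr, val_split hr', cs_eq hs, cs_eq hs'] at h3
    unfold HitG Hit Xg dat
    simp only
    omega

/-! ## labels -/

/-- one hit for every label -/
theorem exists_T0 (hm : m.Ok) {s l l' n : ℕ} (hs : sL m k l = s) (hs' : sL m k l' = s)
    (hr : 0 < rL m k l) (hr' : 0 < rL m k l') {w : Key → ℕ} (hw : Rg m k l w)
    (hw' : Rg m k l' w) (z z' : Fin 3 → ℕ) (Lam : Finset ((JF → ℕ) × (JF → ℕ)))
    (hLam : LabH m k l l' w n z z' ⊆ Lam) :
    ∃ T0 ⊆ Lam ×ˢ ((Y0 m k s ×ˢ Y0 m k s) ×ˢ (BS m k l ×ˢ BS m k l')),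
      T0.card = (LabH m k l l' w n z z').card ∧ (∀ t ∈ T0, HitG m k s l l' w n w t) ∧
      Set.InjOn Prod.fst (T0 : Set HT) := by
  classical
  have hch : ∀ g : (JF → ℕ) × (JF → ℕ), ∃ t : HT, g ∈ LabH m k l l' w n z z' → t.1 = g ∧
      t.2 ∈ (Y0 m k s ×ˢ Y0 m k s) ×ˢ (BS m k l ×ˢ BS m k l') ∧ HitG m k s l l' w n w t := by
    intro g
    by_cases hg : g ∈ LabH m k l l' w n z z'
    · have hg2 := hg
      unfold LabH at hg2
      rw [mem_image] at hg2
      obtain ⟨q, hq, hqg⟩ := hg2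
      rw [mem_filter] at hq
      obtain ⟨h1, h2⟩ := dat_spec hm hs hs' hr hr' hw hw' hq.1
      exact ⟨dat m k l l' w hr hr' q, fun _ => ⟨hqg, h1, h2⟩⟩
    · exact ⟨(g, ((0, 0), (0, 0))), fun h => absurd h hg⟩
  choose φ hφ using hch
  refine ⟨(LabH m k l l' w n z z').image φ, ?_, ?_, ?_, ?_⟩
  · intro t ht
    rw [mem_image] at ht
    obtain ⟨g, hg, rfl⟩ := ht
    obtain ⟨h1, h2, _⟩ := hφ g hg
    rw [mem_product]
    refine ⟨hLam ?_, h2⟩
    rw [h1]
    exact hg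
  · refine card_image_of_injOn ?_
    intro g hg g2 hg2 h
    rw [← (hφ g hg).1, ← (hφ g2 hg2).1, h]
  · intro t ht
    rw [mem_image] at ht
    obtain ⟨g, hg, rfl⟩ := ht
    exact (hφ g hg).2.2
  · intro t ht t2 ht2 h
    rw [mem_coe, mem_image] at ht ht2
    obtain ⟨g, hg, rfl⟩ := ht
    obtain ⟨g2, hg2, rfl⟩ := ht2
    rw [(hφ g hg).1, (hφ g2 hg2).1] at h
    rw [h]

end Pool.Agent.Helper87.OUT2g
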