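import Pool.Agent.Helper87.OUT2g.Up
import Pool.Agent.Helper25.T5g.Lab
import Pool.Agent.Helper83.T5g.Leaf

/-!
# T5g, line 5: `Blk CaseUp CstC`
-/

set_option autoImplicit false

namespace Pool.Agent.Helper87.OUT2g

open Pool.Agent.Helper84.T5g

theorem lHyp : LHyp where
  sub hm hl _ _ hs w n z z' := Pool.Agent.Helper25.T5g.labH_sub hm hl hs w n z z'
  card hm hl _ _ hs w n z z' := Pool.Agent.Helper25.T5g.card_labJ hm hl hs w n z z'
  cst hm hl _ _ hs _ _ _ _ _ hS h := Pool.Agent.Helper25.T5g.card_labJ_const hm hl hs hS h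

/-- **T5b, line 5**: the hits with given main vectors above the joint front -/
theorem blk_up : Blk CaseUp CstC := blk_up_of lHyp Pool.Agent.Helper83.T5g.blk_leaf

end Pool.Agent.Helper87.OUT2g
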