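import Pool.Agent.Helper87.OUT2g.Final
import Pool.Agent.Helper25.T5g.Crude

/-!
# T5g: the field `crude`
-/

set_option autoImplicit false

namespace Pool.Agent.Helper87.OUT2g

open Pool.Agent.Helper84.T5g

/-- **the crude case** -/
theorem blk_crude : Blk CaseCrude RpC := Pool.Agent.Helper25.T5g.crude blk_up

end Pool.Agent.Helper87.OUT2g
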