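import Pool.Agent.Helper87.OUT2g.Prob

/-!
# T5g, line 5: the four patterns in numbers
-/

set_option autoImplicit false

namespace Pool.Agent.Helper87.OUT2g

open Pool.Agent.Helper87.OUT2 (OSide Hit Dj vals card_vals out_bound)
open Finset Pool.Agent.Helper84.T5g Pool.Agent.Helper57.T5
open Pool.Agent.Helper37.T5g Pool.Agent.Helper39.T5
open Pool.Agent.Helper5.ET (bb mask)
open Pool.Agent.Helper30.T5g (QF QT RT PZ ez NL)
open Pool.Agent.Helper22.HW
open Pool.Agent.Helper30.T5g (pz)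
open Pool.Agent.Helper27.T4 (NN MM fx NN_fx_mul MM_pos NN_pos)
open Pool.Agent.Helper42.T5.Pr
open Pool.Agent.Helper22.SL (rk3)

variable {m : Sq} {k : ℕ}

/-! ## families -/

theorem fam_zero : fam rk3 0 = (univ : Finset (Fin 3)) := by
  ext i
  simp [fam]

theorem fam_three : fam rk3 3 = (∅ : Finset (Fin 3)) := by
  ext i
  simp only [fam, mem_filter, mem_univ, true_and, rk3, notMem_empty, iff_false]
  omega

/-- product of the moduli of the families `1`, `2` -/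
noncomputable def Q1 (m : Sq) (k s : ℕ) : ℕ := MM (pz k s) (zf m k s) (fam rk3 1)

theorem Q1_pos (m : Sq) (k s : ℕ) : 0 < Q1 m k s := MM_pos (pz_prime k s) _ _

theorem fam_one : fam rk3 1 = ({1, 2} : Finset (Fin 3)) := by decide

theorem Q1_eq (m : Sq) (k s : ℕ) : Q1 m k s = QF m k s 1 * QF m k s 2 := by
  unfold Q1 MM
  rw [fam_one, prod_pair (by decide)]
  rfl

theorem QT_eq (m : Sq) (k s : ℕ) : QT m k s = QF m k s 0 * Q1 m k s := by
  rw [Q1_eq]
  unfold QT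
  rw [Fin.prod_univ_three, mul_assoc]

theorem NN_eq_QT (m : Sq) (k s : ℕ) : NN (pz k s) (zf m k s) = QT m k s := rfl

theorem MM_zero (m : Sq) (k s : ℕ) : MM (pz k s) (zf m k s) (fam rk3 0) = QT m k s := by
  rw [fam_zero]
  rfl

theorem MM_three (m : Sq) (k s : ℕ) : MM (pz k s) (zf m k s) (fam rk3 3) = 1 := by
  rw [fam_three]
  rfl

theorem NNfx_zero (m : Sq) (k s : ℕ) : NN (pz k s) (fx (zf m k s) (fam rk3 0)) = 1 := by
  have h := NN_fx_mul (p := pz k s) (zf m k s) (fam rk3 0)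
  rw [MM_zero, NN_eq_QT] at h
  have h2 : 0 < QT m k s := Pool.Agent.Helper30.T5g.QT_pos m k s
  exact Nat.eq_of_mul_eq_mul_right h2 (by rw [h, one_mul])

theorem NNfx_three (m : Sq) (k s : ℕ) : NN (pz k s) (fx (zf m k s) (fam rk3 3)) = QT m k s := by
  have h := NN_fx_mul (p := pz k s) (zf m k s) (fam rk3 3)
  rw [MM_three, mul_one, NN_eq_QT] at h
  exact h

theorem NNfx_one (m : Sq) (k s : ℕ) : NN (pz k s) (fx (zf m k s) (fam rk3 1)) = QF m k s 0 := by
  have h := NN_fx_mul (p := pz k s) (zf m k s) (fam rk3 1)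
  rw [NN_eq_QT, QT_eq] at h
  exact Nat.eq_of_mul_eq_mul_right (Q1_pos m k s) h

/-! ## the number of values of the left code -/

/-- one side is not random -/
theorem G_three {A B Q L : ℕ} (hL : 0 < L) (h : A * Q ≤ L ∨ B * Q ≤ L) :
    min (A * Q) (B * Q) / L + 1 ≤ 2 := by
  have h1 : min (A * Q) (B * Q) ≤ L := by
    rcases h with h | h
    · exact (min_le_left _ _).trans h
    · exact (min_le_right _ _).trans h
  have h2 : min (A * Q) (B * Q) / L ≤ 1 := by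
    calc min (A * Q) (B * Q) / L ≤ L / L := Nat.div_le_div_right h1
      _ = 1 := Nat.div_self hL
  omega

theorem G_one {A B Q0 Q1 L : ℕ} (hA : 0 < A) (hQ0 : 0 < Q0) (h : A * Q0 ≤ L) :
    min (A * (Q0 * Q1)) (B * (Q0 * Q1)) / L + 1 ≤ B * Q1 / A + 1 := by
  have h0 : 0 < A * Q0 := Nat.mul_pos hA hQ0
  have h1 : min (A * (Q0 * Q1)) (B * (Q0 * Q1)) / L ≤ B * (Q0 * Q1) / (A * Q0) :=
    (Nat.div_le_div_left h h0).trans (Nat.div_le_div_right (min_le_right _ _))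
  have h2 : B * (Q0 * Q1) / (A * Q0) = B * Q1 / A := by
    rw [show B * (Q0 * Q1) = (B * Q1) * Q0 by ring, Nat.mul_div_mul_right _ _ hQ0]
  omega

/-! ## sizes of the sets of vectors -/

theorem card_T1_sq (p a : ℕ) : (T1 p a).card ^ 2 ≤ p ^ a := by
  have h1 : (T1 p a).card ≤ Nat.sqrt (p ^ a) := by
    have h2 : T1 p a ⊆ Icc 1 (Nat.sqrt (p ^ a)) := by
      intro y hy
      rw [mem_T1] at hy
      rw [mem_Icc]
      refine ⟨hy.1.one_lt.le, ?_⟩
      rw [Nat.le_sqrt, ← pow_two]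
      exact hy.2.2.le
    have h3 := card_le_card h2
    rw [Nat.card_Icc] at h3
    omega
  calc (T1 p a).card ^ 2 ≤ Nat.sqrt (p ^ a) ^ 2 := Nat.pow_le_pow_left h1 2
    _ ≤ p ^ a := by rw [pow_two]; exact Nat.sqrt_le _

theorem card_Y0_sq (m : Sq) (k s : ℕ) : (Y0 m k s).card ^ 2 ≤ QT m k s := by
  refine (Nat.pow_le_pow_left (card_le_card (Y0_subset m k s)) 2).trans ?_
  unfold TT
  rw [Fintype.card_piFinset, ← Finset.prod_pow]
  exact Finset.prod_le_prod' (fun i _ => card_T1_sq _ _)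

theorem card_Yv_sq (m : Sq) (k s v : ℕ) : ((Y0 m k s).filter (fun y => y 0 = v)).card ^ 2 ≤ Q1 m k s := by
  have h1 : (Y0 m k s).filter (fun y => y 0 = v) ⊆
      Fintype.piFinset (fun f : Fin 3 => if f = 0 then {v} else T1 (pz k s f) (zf m k s f)) := by
    intro y hy
    rw [mem_filter] at hy
    replace hy : y ∈ TT (pz k s) (zf m k s) ∧ y 0 = v := ⟨Y0_subset m k s hy.1, hy.2⟩
    unfold TT at hy
    rw [Fintype.mem_piFinset] at hy ⊢
    intro f
    split_ifs with hf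
    · rw [hf, mem_singleton]
      exact hy.2
    · exact hy.1 f
  have h2 := card_le_card h1
  rw [Fintype.card_piFinset, Fin.prod_univ_three] at h2
  have h3 : ((Y0 m k s).filter (fun y => y 0 = v)).card ≤
      (T1 (pz k s 1) (zf m k s 1)).card * (T1 (pz k s 2) (zf m k s 2)).card := by
    refine h2.trans (le_of_eq ?_)
    simp
  calc ((Y0 m k s).filter (fun y => y 0 = v)).card ^ 2
      ≤ ((T1 (pz k s 1) (zf m k s 1)).card * (T1 (pz k s 2) (zf m k s 2)).card) ^ 2 :=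
        Nat.pow_le_pow_left h3 2
    _ = (T1 (pz k s 1) (zf m k s 1)).card ^ 2 * (T1 (pz k s 2) (zf m k s 2)).card ^ 2 := by ring
    _ ≤ QF m k s 1 * QF m k s 2 := Nat.mul_le_mul (card_T1_sq _ _) (card_T1_sq _ _)
    _ = Q1 m k s := (Q1_eq m k s).symm

/-! ## the numbers -/

/-- the numbers of a pair at the outermost static level; `S` = size -/
structure Nb (m : Sq) (k s l l' Lb : ℕ) (S : ℝ) : Prop where
  S1 : 1000 ≤ S
  lb : (Lb : ℝ) ≤ Real.exp (S / 1000)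
  bw : (BW m k l : ℝ) ≤ Real.exp (S / 1000)
  bw' : (BW m k l' : ℝ) ≤ Real.exp (S / 1000)
  rat : (M0 m k l' : ℝ) ≤ M0 m k l * Real.exp (-(S / 10))
  q0 : Real.exp S ≤ QF m k s 0
  q1 : Real.exp S ≤ Q1 m k s
  qt : (QT m k s : ℝ) ≤ Real.exp (14 * S)
  cop : (M0 m k l).Coprime (QF m k s 0)
  pos : 0 < M0 m k l
  pos' : 0 < M0 m k l'

theorem Nb.lbb {s l l' Lb : ℕ} {S : ℝ} (h : Nb m k s l l' Lb S) :
    (Lb : ℝ) * ((BW m k l : ℝ) * BW m k l') ≤ Real.exp (3 * S / 1000) := by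
  have h1 : Real.exp (3 * S / 1000) =
      Real.exp (S / 1000) * (Real.exp (S / 1000) * Real.exp (S / 1000)) := by
    rw [← Real.exp_add, ← Real.exp_add]
    congr 1
    ring
  rw [h1]
  exact mul_le_mul h.lb (mul_le_mul h.bw h.bw' (Nat.cast_nonneg _) (Real.exp_pos _).le)
    (mul_nonneg (Nat.cast_nonneg _) (Nat.cast_nonneg _)) (Real.exp_pos _).le

theorem two_le_exp_one : (2 : ℝ) ≤ Real.exp 1 := by
  have := Real.exp_one_gt_d9
  linarith

theorem price_c_abs {L W A B q0 q1 S : ℝ} (hL : 0 ≤ L) (hW : 0 ≤ W) (hA0 : 0 ≤ A) (hB0 : 0 ≤ B)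
    (h1 : L * W ≤ Real.exp (3 * S / 1000)) (hA : A ^ 2 ≤ q0 * q1) (hB : B ^ 2 ≤ q1)
    (hq0 : Real.exp S ≤ q0) (hq1 : 0 < q1) (hS : 1000 ≤ S) :
    L * ((A * B) * W) * 2 ≤ Real.exp (-(S / 20)) * (q0 * q1) := by
  have hq0' : 0 < q0 := (Real.exp_pos _).trans_le hq0
  have h2 : A * B ≤ q0 * q1 * Real.exp (-(S / 2)) := by
    refine abs_le_of_sq_le_sq' ?_ (by positivity) |>.2
    have h3 : Real.exp (-(S / 2)) ^ 2 = Real.exp (-S) := by
      rw [← Real.exp_nat_mul]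
      congr 1
      push_cast
      ring
    have h4 : (1 : ℝ) ≤ q0 * Real.exp (-S) := by
      rw [Real.exp_neg, ← div_eq_mul_inv, one_le_div (Real.exp_pos _)]
      exact hq0
    calc (A * B) ^ 2 = A ^ 2 * B ^ 2 := by ring
      _ ≤ (q0 * q1) * q1 := mul_le_mul hA hB (by positivity) (by positivity)
      _ ≤ (q0 * q1) * q1 * (q0 * Real.exp (-S)) := le_mul_of_one_le_right (by positivity) h4
      _ = (q0 * q1 * Real.exp (-(S / 2))) ^ 2 := by
          rw [mul_pow, h3]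
          ring
  calc L * ((A * B) * W) * 2 = (L * W) * (A * B) * 2 := by ring
    _ ≤ Real.exp (3 * S / 1000) * (q0 * q1 * Real.exp (-(S / 2))) * Real.exp 1 := by
        refine mul_le_mul (mul_le_mul h1 h2 (by positivity) (Real.exp_pos _).le) two_le_exp_one
          (by norm_num) (by positivity)
    _ = q0 * q1 * Real.exp (3 * S / 1000 + -(S / 2) + 1) := by
        rw [Real.exp_add, Real.exp_add]
        ring
    _ ≤ q0 * q1 * Real.exp (-(S / 20)) := by
        refine mul_le_mul_of_nonneg_left (Real.exp_le_exp.2 ?_) (by positivity)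
        linarith
    _ = Real.exp (-(S / 20)) * (q0 * q1) := by ring

theorem price_d_abs {L W A B q0 q1 S R : ℝ} (hL : 0 ≤ L) (hW : 0 ≤ W) (hA0 : 0 ≤ A) (hB0 : 0 ≤ B)
    (h1 : L * W ≤ Real.exp (3 * S / 1000)) (hA : A ^ 2 ≤ q0 * q1) (hB : B ^ 2 ≤ q0 * q1)
    (hq0 : Real.exp S ≤ q0) (hq1 : Real.exp S ≤ q1) (hS : 1000 ≤ S)
    (hR0 : 0 ≤ R) (hR : R ≤ q1 * Real.exp (-(S / 10))) :
    L * ((A * B) * W) * (R + 1) ≤ Real.exp (-(S / 20)) * (q0 * q1 * q1) := by
  have hq0' : 0 < q0 := (Real.exp_pos _).trans_le hq0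
  have hq1' : 0 < q1 := (Real.exp_pos _).trans_le hq1
  have h2 : A * B ≤ q0 * q1 := by nlinarith [sq_nonneg (A - B)]
  have h3 : R + 1 ≤ Real.exp 1 * (q1 * Real.exp (-(S / 10))) := by
    have h6 : (1 : ℝ) ≤ q1 * Real.exp (-(S / 10)) := by
      rw [Real.exp_neg, ← div_eq_mul_inv, one_le_div (Real.exp_pos _)]
      refine le_trans (Real.exp_le_exp.2 ?_) hq1
      linarith
    have h7 : 2 * (q1 * Real.exp (-(S / 10))) ≤ Real.exp 1 * (q1 * Real.exp (-(S / 10))) :=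
      mul_le_mul_of_nonneg_right two_le_exp_one (by positivity)
    linarith
  calc L * ((A * B) * W) * (R + 1) = (L * W) * (A * B) * (R + 1) := by ring
    _ ≤ Real.exp (3 * S / 1000) * (q0 * q1) * (Real.exp 1 * (q1 * Real.exp (-(S / 10)))) := by
        refine mul_le_mul (mul_le_mul h1 h2 (by positivity) (Real.exp_pos _).le) h3
          (by positivity) (by positivity)
    _ = q0 * q1 * q1 * Real.exp (3 * S / 1000 + 1 + -(S / 10)) := by
        rw [Real.exp_add, Real.exp_add]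
        ring
    _ ≤ q0 * q1 * q1 * Real.exp (-(S / 20)) := by
        refine mul_le_mul_of_nonneg_left (Real.exp_le_exp.2 ?_) (by positivity)
        linarith
    _ = Real.exp (-(S / 20)) * (q0 * q1 * q1) := by ring

/-- the price of a pattern with a constant family `0` on the side which is not random -/
theorem Nb.price_c {s l l' Lb : ℕ} {S : ℝ} (h : Nb m k s l l' Lb S) {A B : ℕ}
    (hA : A ^ 2 ≤ QT m k s) (hB : B ^ 2 ≤ Q1 m k s) :
    ((Lb * ((A * B) * (BW m k l * BW m k l')) * 2 : ℕ) : ℝ) ≤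
      Real.exp (-(S / 20)) * (QT m k s : ℝ) := by
  have e1 : (QT m k s : ℝ) = QF m k s 0 * Q1 m k s := by exact_mod_cast QT_eq m k s
  have hA' : (A : ℝ) ^ 2 ≤ QF m k s 0 * Q1 m k s := by
    rw [← e1]
    exact_mod_cast hA
  have hB' : (B : ℝ) ^ 2 ≤ Q1 m k s := by exact_mod_cast hB
  have hq1 : (0 : ℝ) < Q1 m k s := (Real.exp_pos _).trans_le h.q1
  have h2 := price_c_abs (Nat.cast_nonneg Lb)
    (mul_nonneg (Nat.cast_nonneg (BW m k l)) (Nat.cast_nonneg (BW m k l')))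
    (Nat.cast_nonneg A) (Nat.cast_nonneg B) h.lbb hA' hB' h.q0 hq1 h.S1
  rw [e1]
  push_cast
  exact h2

/-- the price of a pattern with a distinct family `0` on the side with the constant outer key -/
theorem Nb.price_d {s l l' Lb : ℕ} {S : ℝ} (h : Nb m k s l l' Lb S) {A B : ℕ}
    (hA : A ^ 2 ≤ QT m k s) (hB : B ^ 2 ≤ QT m k s) :
    ((Lb * ((A * B) * (BW m k l * BW m k l')) * (M0 m k l' * Q1 m k s / M0 m k l + 1) : ℕ) : ℝ) ≤
      Real.exp (-(S / 20)) * ((QT m k s : ℝ) * Q1 m k s) := by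
  have e1 : (QT m k s : ℝ) = QF m k s 0 * Q1 m k s := by exact_mod_cast QT_eq m k s
  have hA' : (A : ℝ) ^ 2 ≤ QF m k s 0 * Q1 m k s := by
    rw [← e1]
    exact_mod_cast hA
  have hB' : (B : ℝ) ^ 2 ≤ QF m k s 0 * Q1 m k s := by
    rw [← e1]
    exact_mod_cast hB
  have hq1 : (0 : ℝ) < Q1 m k s := (Real.exp_pos _).trans_le h.q1
  have hp : (0 : ℝ) < M0 m k l := by exact_mod_cast h.pos
  have h4 : ((M0 m k l' * Q1 m k s / M0 m k l : ℕ) : ℝ) ≤
      ((M0 m k l' * Q1 m k s : ℕ) : ℝ) / M0 m k l := Nat.cast_div_le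
  have h5 : ((M0 m k l' * Q1 m k s : ℕ) : ℝ) / M0 m k l ≤ Q1 m k s * Real.exp (-(S / 10)) := by
    rw [div_le_iff₀ hp]
    push_cast
    calc (M0 m k l' : ℝ) * Q1 m k s ≤ (M0 m k l * Real.exp (-(S / 10))) * Q1 m k s :=
          mul_le_mul_of_nonneg_right h.rat hq1.le
      _ = _ := by ring
  have h2 := price_d_abs (Nat.cast_nonneg Lb)
    (mul_nonneg (Nat.cast_nonneg (BW m k l)) (Nat.cast_nonneg (BW m k l')))
    (Nat.cast_nonneg A) (Nat.cast_nonneg B) h.lbb hA' hB' h.q0 h.q1 h.S1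
    (Nat.cast_nonneg (M0 m k l' * Q1 m k s / M0 m k l)) (h4.trans h5)
  rw [e1]
  push_cast at h2 ⊢
  exact h2

theorem Nb.q1_le {s l l' Lb : ℕ} {S : ℝ} (h : Nb m k s l l' Lb S) :
    (Q1 m k s : ℝ) ≤ QT m k s ∧ (1 : ℝ) ≤ QT m k s := by
  have h1 : 0 < QF m k s 0 := Pool.Agent.Helper30.T5g.QF_pos m k s 0
  have h2 := Q1_pos m k s
  have h3 := QT_eq m k s
  have h4 : Q1 m k s ≤ QT m k s := by
    rw [h3]
    exact Nat.le_mul_of_pos_left _ h1
  exact ⟨by exact_mod_cast h4, by exact_mod_cast h2.trans_le h4⟩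

theorem Nb.qq {s l l' Lb : ℕ} {S : ℝ} (h : Nb m k s l l' Lb S) {x y : ℝ}
    (hx : x ≤ Real.exp (-(S / 20)) * y) (hy0 : 0 ≤ y) (hy : y ≤ (QT m k s : ℝ) * QT m k s) :
    x ≤ Real.exp (28 * S) := by
  have h1 : Real.exp (-(S / 20)) ≤ 1 := by
    rw [← Real.exp_zero]
    refine Real.exp_le_exp.2 ?_
    have := h.S1
    linarith
  have h2 : (0 : ℝ) ≤ QT m k s := Nat.cast_nonneg _
  calc x ≤ Real.exp (-(S / 20)) * y := hx
    _ ≤ 1 * y := mul_le_mul_of_nonneg_right h1 hy0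
    _ = y := one_mul y
    _ ≤ (QT m k s : ℝ) * QT m k s := hy
    _ ≤ Real.exp (14 * S) * Real.exp (14 * S) := mul_le_mul h.qt h.qt h2 (Real.exp_pos _).le
    _ = Real.exp (28 * S) := by
        rw [← Real.exp_add]
        congr 1
        ring

end Pool.Agent.Helper87.OUT2g
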