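import Pool.Agent.Helper87.OUT2g.Bound

/-!
# T5g, line 5: the union of the four patterns, and the extraction of a pattern
-/

set_option autoImplicit false

namespace Pool.Agent.Helper87.OUT2g

open Pool.Agent.Helper87.OUT2 (OSide Hit Dj vals card_vals out_bound)
open Finset Pool.Agent.Helper84.T5g Pool.Agent.Helper57.T5
open Pool.Agent.Helper37.T5g Pool.Agent.Helper39.T5
open Pool.Agent.Helper5.ET (bb mask)
open Pool.Agent.Helper30.T5g (QF QT RT PZ ez NL)
open Pool.Agent.Helper22.HW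
open Pool.Agent.Helper30.T5g (pz)
open Pool.Agent.Helper27.T4 (NN MM fx NN_fx_mul MM_pos NN_pos)
open Pool.Agent.Helper42.T5.Pr
open Pool.Agent.Helper22.SL (rk3)
open Pool.Agent.Helper94.T5b (Cst PatE exists_PatE)

variable {m : Sq} {k : ℕ}

/-- the vectors of the outermost level whose family `0` has the value `v` -/
noncomputable def Yv (m : Sq) (k s v : ℕ) : Finset (Fin 3 → ℕ) := (Y0 m k s).filter (fun y => y 0 = v)

/-- one of the four patterns -/
def Four (m : Sq) (k s l l' : ℕ) (n : ℕ) (z z' : Fin 3 → ℕ) (M : ℕ) (w : Key → ℕ) : Prop :=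
  ((∃ v ∈ range (QF m k s 0), TSet m k s l l' w n z z' (Y0 m k s) (Yv m k s v) 0 3 M) ∨
    TSet m k s l l' w n z z' (Y0 m k s) (Y0 m k s) 0 1 M) ∨
  ((∃ v ∈ range (QF m k s 0), TSet m k s l l' w n z z' (Yv m k s v) (Y0 m k s) 3 0 M) ∨
    TSet m k s l l' w n z z' (Y0 m k s) (Y0 m k s) 1 0 M)

theorem lt_QF {s : ℕ} {y : Fin 3 → ℕ} (hy : y ∈ Y0 m k s) : y 0 ∈ range (QF m k s 0) := by
  replace hy := Y0_subset m k s hy
  unfold TT at hy
  rw [Fintype.mem_piFinset] at hy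
  have h := (mem_T1.1 (hy 0))
  rw [mem_range]
  have h1 : y 0 ≤ y 0 ^ 2 := Nat.le_self_pow (by norm_num) _
  exact lt_of_le_of_lt h1 h.2.2

theorem mem_Yv {s v : ℕ} {y : Fin 3 → ℕ} (hy : y ∈ Y0 m k s) (h : y 0 = v) : y ∈ Yv m k s v := by
  unfold Yv
  exact mem_filter.2 ⟨hy, h⟩

/-! ## probability -/

theorem Nb.e1 {s l l' Lb : ℕ} {S : ℝ} (h : Nb m k s l l' Lb S) (hm : m.Ok) {n : ℕ}
    (hs : sL m k l = s) (hs' : sL m k l' = s)
    (hne : l ≠ l') (hr : 0 < rL m k l) (hr' : 0 < rL m k l') (hbb : bb 0 ≤ mL m k l)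
    (hbb' : bb 0 ≤ mL m k l') (z z' : Fin 3 → ℕ)
    (hLb : ∀ w, (LabJ m k l l' w n z z').card ≤ Lb) (v M : ℕ) {K : Finset Key}
    (hK : keysOf m k l ⊆ K) (hK' : keysOf m k l' ⊆ K) :
    PrLe (Mk m k) K (fun w => TSet m k s l l' w n z z' (Y0 m k s) (Yv m k s v) 0 3 M)
      (Real.exp (28 * S) * Real.exp (-(S / 20)) ^ M) := by
  have hQ : 0 < QT m k s := Pool.Agent.Helper30.T5g.QT_pos m k s
  have hp := h.price_c (card_Y0_sq m k s) (card_Yv_sq m k s v)
  have hq : ((Lb * (((Y0 m k s).card * (Yv m k s v).card) * (BW m k l * BW m k l')) * 2 : ℕ) : ℝ) ≤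
      Real.exp (-(S / 20)) * ((MM (pz k s) (zf m k s) (fam rk3 0) : ℝ) *
        MM (pz k s) (zf m k s) (fam rk3 3)) := by
    rw [MM_zero, MM_three, Nat.cast_one, mul_one]
    exact hp
  refine PrLe_mono (fun _ _ hw => hw) ?_ (case_bound hm hs hs' hne hr hr' hbb hbb' z z'
    (Y := Y0 m k s) (Y' := Yv m k s v) subset_rfl (filter_subset _ _) 0 3 hLb (G := 2) ?_
    (Real.exp_pos _).le hq M hK hK')
  · refine mul_le_mul_of_nonneg_right ?_ (by positivity)
    refine h.qq hp (Nat.cast_nonneg _) ?_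
    exact le_mul_of_one_le_right (Nat.cast_nonneg _) h.q1_le.2
  · rw [NNfx_zero, NNfx_three, NN_eq_QT]
    refine G_three (Nat.lcm_pos (Nat.mul_pos h.pos one_pos) (Nat.mul_pos h.pos' hQ)) (Or.inr ?_)
    exact Nat.le_of_dvd (Nat.lcm_pos (Nat.mul_pos h.pos one_pos) (Nat.mul_pos h.pos' hQ))
      (Nat.dvd_lcm_right _ _)

theorem Nb.e2 {s l l' Lb : ℕ} {S : ℝ} (h : Nb m k s l l' Lb S) (hm : m.Ok) {n : ℕ}
    (hs : sL m k l = s) (hs' : sL m k l' = s)
    (hne : l ≠ l') (hr : 0 < rL m k l) (hr' : 0 < rL m k l') (hbb : bb 0 ≤ mL m k l)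
    (hbb' : bb 0 ≤ mL m k l') (z z' : Fin 3 → ℕ)
    (hLb : ∀ w, (LabJ m k l l' w n z z').card ≤ Lb) (M : ℕ) {K : Finset Key}
    (hK : keysOf m k l ⊆ K) (hK' : keysOf m k l' ⊆ K) :
    PrLe (Mk m k) K (fun w => TSet m k s l l' w n z z' (Y0 m k s) (Y0 m k s) 0 1 M)
      (Real.exp (28 * S) * Real.exp (-(S / 20)) ^ M) := by
  have hQ0 : 0 < QF m k s 0 := Pool.Agent.Helper30.T5g.QF_pos m k s 0
  have hp := h.price_d (card_Y0_sq m k s) (card_Y0_sq m k s)
  have hq : ((Lb * (((Y0 m k s).card * (Y0 m k s).card) * (BW m k l * BW m k l')) *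
      (M0 m k l' * Q1 m k s / M0 m k l + 1) : ℕ) : ℝ) ≤
      Real.exp (-(S / 20)) * ((MM (pz k s) (zf m k s) (fam rk3 0) : ℝ) *
        MM (pz k s) (zf m k s) (fam rk3 1)) := by
    rw [MM_zero]
    exact hp
  refine PrLe_mono (fun _ _ hw => hw) ?_ (case_bound hm hs hs' hne hr hr' hbb hbb' z z'
    (Y := Y0 m k s) (Y' := Y0 m k s) subset_rfl subset_rfl 0 1 hLb
    (G := M0 m k l' * Q1 m k s / M0 m k l + 1) ?_ (Real.exp_pos _).le hq M hK hK')
  · refine mul_le_mul_of_nonneg_right ?_ (by positivity)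
    refine h.qq hp (mul_nonneg (Nat.cast_nonneg _) (Nat.cast_nonneg _)) ?_
    exact mul_le_mul_of_nonneg_left h.q1_le.1 (Nat.cast_nonneg _)
  · rw [NNfx_zero, NNfx_one, NN_eq_QT, QT_eq]
    refine G_one h.pos hQ0 ?_
    refine Nat.le_of_dvd (Nat.lcm_pos (Nat.mul_pos h.pos one_pos) (Nat.mul_pos h.pos' hQ0)) ?_
    refine Nat.Coprime.mul_dvd_of_dvd_of_dvd h.cop ?_ ?_
    · exact (Dvd.intro _ (rfl : M0 m k l * 1 = _)).trans (Nat.dvd_lcm_left _ _)
    · exact (Dvd.intro_left _ (rfl : M0 m k l' * QF m k s 0 = _)).trans (Nat.dvd_lcm_right _ _)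

theorem Nb.e3 {s l l' Lb : ℕ} {S : ℝ} (h : Nb m k s l l' Lb S) (hm : m.Ok) {n : ℕ}
    (hs : sL m k l = s) (hs' : sL m k l' = s)
    (hne : l ≠ l') (hr : 0 < rL m k l) (hr' : 0 < rL m k l') (hbb : bb 0 ≤ mL m k l)
    (hbb' : bb 0 ≤ mL m k l') (z z' : Fin 3 → ℕ)
    (hLb : ∀ w, (LabJ m k l l' w n z z').card ≤ Lb) (v M : ℕ) {K : Finset Key}
    (hK : keysOf m k l ⊆ K) (hK' : keysOf m k l' ⊆ K) :
    PrLe (Mk m k) K (fun w => TSet m k s l l' w n z z' (Yv m k s v) (Y0 m k s) 3 0 M)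
      (Real.exp (28 * S) * Real.exp (-(S / 20)) ^ M) := by
  have hQ : 0 < QT m k s := Pool.Agent.Helper30.T5g.QT_pos m k s
  have hp := h.price_c (card_Y0_sq m k s) (card_Yv_sq m k s v)
  rw [mul_comm (Y0 m k s).card] at hp
  have hq : ((Lb * (((Yv m k s v).card * (Y0 m k s).card) * (BW m k l * BW m k l')) * 2 : ℕ) : ℝ) ≤
      Real.exp (-(S / 20)) * ((MM (pz k s) (zf m k s) (fam rk3 3) : ℝ) *
        MM (pz k s) (zf m k s) (fam rk3 0)) := by
    rw [MM_zero, MM_three, Nat.cast_one, one_mul]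
    exact hp
  refine PrLe_mono (fun _ _ hw => hw) ?_ (case_bound hm hs hs' hne hr hr' hbb hbb' z z'
    (Y := Yv m k s v) (Y' := Y0 m k s) (filter_subset _ _) subset_rfl 3 0 hLb (G := 2) ?_
    (Real.exp_pos _).le hq M hK hK')
  · refine mul_le_mul_of_nonneg_right ?_ (by positivity)
    refine h.qq hp (Nat.cast_nonneg _) ?_
    exact le_mul_of_one_le_right (Nat.cast_nonneg _) h.q1_le.2
  · rw [NNfx_zero, NNfx_three, NN_eq_QT]
    refine G_three (Nat.lcm_pos (Nat.mul_pos h.pos hQ) (Nat.mul_pos h.pos' one_pos)) (Or.inl ?_)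
    exact Nat.le_of_dvd (Nat.lcm_pos (Nat.mul_pos h.pos hQ) (Nat.mul_pos h.pos' one_pos))
      (Nat.dvd_lcm_left _ _)

theorem Nb.e4 {s l l' Lb : ℕ} {S : ℝ} (h : Nb m k s l l' Lb S) (hm : m.Ok) {n : ℕ}
    (hs : sL m k l = s) (hs' : sL m k l' = s)
    (hne : l ≠ l') (hr : 0 < rL m k l) (hr' : 0 < rL m k l') (hbb : bb 0 ≤ mL m k l)
    (hbb' : bb 0 ≤ mL m k l') (z z' : Fin 3 → ℕ)
    (hLb : ∀ w, (LabJ m k l l' w n z z').card ≤ Lb) (M : ℕ) {K : Finset Key}
    (hK : keysOf m k l ⊆ K) (hK' : keysOf m k l' ⊆ K) :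
    PrLe (Mk m k) K (fun w => TSet m k s l l' w n z z' (Y0 m k s) (Y0 m k s) 1 0 M)
      (Real.exp (28 * S) * Real.exp (-(S / 20)) ^ M) := by
  have hQ0 : 0 < QF m k s 0 := Pool.Agent.Helper30.T5g.QF_pos m k s 0
  have hp := h.price_d (card_Y0_sq m k s) (card_Y0_sq m k s)
  have hq : ((Lb * (((Y0 m k s).card * (Y0 m k s).card) * (BW m k l * BW m k l')) *
      (M0 m k l' * Q1 m k s / M0 m k l + 1) : ℕ) : ℝ) ≤
      Real.exp (-(S / 20)) * ((MM (pz k s) (zf m k s) (fam rk3 1) : ℝ) *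
        MM (pz k s) (zf m k s) (fam rk3 0)) := by
    rw [MM_zero, mul_comm ((MM (pz k s) (zf m k s) (fam rk3 1) : ℕ) : ℝ)]
    exact hp
  refine PrLe_mono (fun _ _ hw => hw) ?_ (case_bound hm hs hs' hne hr hr' hbb hbb' z z'
    (Y := Y0 m k s) (Y' := Y0 m k s) subset_rfl subset_rfl 1 0 hLb
    (G := M0 m k l' * Q1 m k s / M0 m k l + 1) ?_ (Real.exp_pos _).le hq M hK hK')
  · refine mul_le_mul_of_nonneg_right ?_ (by positivity)
    refine h.qq hp (mul_nonneg (Nat.cast_nonneg _) (Nat.cast_nonneg _)) ?_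
    exact mul_le_mul_of_nonneg_left h.q1_le.1 (Nat.cast_nonneg _)
  · rw [NNfx_zero, NNfx_one, NN_eq_QT, QT_eq]
    refine G_one h.pos hQ0 ?_
    refine Nat.le_of_dvd (Nat.lcm_pos (Nat.mul_pos h.pos hQ0) (Nat.mul_pos h.pos' one_pos)) ?_
    exact Nat.dvd_lcm_left _ _

/-- **the probability of the four patterns** -/
theorem Nb.four {s l l' Lb : ℕ} {S : ℝ} (h : Nb m k s l l' Lb S) (hm : m.Ok) {n : ℕ}
    (hs : sL m k l = s) (hs' : sL m k l' = s)
    (hne : l ≠ l') (hr : 0 < rL m k l) (hr' : 0 < rL m k l') (hbb : bb 0 ≤ mL m k l)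
    (hbb' : bb 0 ≤ mL m k l') (z z' : Fin 3 → ℕ)
    (hLb : ∀ w, (LabJ m k l l' w n z z').card ≤ Lb) (M : ℕ) {K : Finset Key}
    (hK : keysOf m k l ⊆ K) (hK' : keysOf m k l' ⊆ K) :
    PrLe (Mk m k) K (Four m k s l l' n z z' M) (Real.exp (43 * S) * Real.exp (-(S / 20)) ^ M) := by
  set ε := Real.exp (28 * S) * Real.exp (-(S / 20)) ^ M with hε
  have hε0 : 0 ≤ ε := by positivity
  have h1 := PrLe_exists (range (QF m k s 0))
    (fun v _ => h.e1 hm hs hs' hne hr hr' hbb hbb' z z' hLb v M hK hK')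
  have h2 := h.e2 hm hs hs' hne hr hr' hbb hbb' z z' hLb M hK hK'
  have h3 := PrLe_exists (range (QF m k s 0))
    (fun v _ => h.e3 hm hs hs' hne hr hr' hbb hbb' z z' hLb v M hK hK')
  have h4 := h.e4 hm hs hs' hne hr hr' hbb hbb' z z' hLb M hK hK'
  refine PrLe_mono (fun _ _ hw => hw) ?_ (PrLe_or (PrLe_or h1 h2) (PrLe_or h3 h4))
  rw [sum_const, card_range, nsmul_eq_mul, ← hε]
  have h5 : (QF m k s 0 : ℝ) ≤ Real.exp (14 * S) := by
    refine le_trans ?_ h.qt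
    have h6 : QF m k s 0 ≤ QT m k s := by
      rw [QT_eq]
      exact Nat.le_mul_of_pos_right _ (Q1_pos m k s)
    exact_mod_cast h6
  have h6 : (1 : ℝ) ≤ Real.exp (14 * S) := by
    rw [← Real.exp_zero]
    refine Real.exp_le_exp.2 ?_
    have := h.S1
    linarith
  have h7 : (4 : ℝ) ≤ Real.exp S := by
    have h8 : (2 : ℝ) ^ 2 ≤ Real.exp 1 ^ 2 := pow_le_pow_left₀ (by norm_num) two_le_exp_one 2
    rw [← Real.exp_nat_mul] at h8
    refine le_trans (by norm_num at h8 ⊢; exact h8) (Real.exp_le_exp.2 ?_ : Real.exp (2 * 1) ≤ _)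
    have := h.S1
    linarith
  have h8 : Real.exp (43 * S) = Real.exp S * Real.exp (14 * S) * Real.exp (28 * S) := by
    rw [← Real.exp_add, ← Real.exp_add]
    congr 1
    ring
  calc (QF m k s 0 : ℝ) * ε + ε + ((QF m k s 0 : ℝ) * ε + ε)
      ≤ (Real.exp (14 * S) * ε + Real.exp (14 * S) * ε) +
        (Real.exp (14 * S) * ε + Real.exp (14 * S) * ε) := by
        have a := mul_le_mul_of_nonneg_right h5 hε0
        have b := mul_le_mul_of_nonneg_right h6 hε0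
        linarith
    _ = 4 * (Real.exp (14 * S) * ε) := by ring
    _ ≤ Real.exp S * (Real.exp (14 * S) * ε) := mul_le_mul_of_nonneg_right h7 (by positivity)
    _ = _ := by
        rw [h8, hε]
        ring

/-! ## extraction -/

/-- the number of labels with constant keyed coordinates is at most `c` -/
def ConstLe (m : Sq) (k l l' : ℕ) (c : ℕ) : Prop :=
  ∀ (w : Key → ℕ) (n : ℕ) (z z' : Fin 3 → ℕ), ∀ S ⊆ LabJ m k l l' w n z z',
    (∀ q ∈ S, ∀ r ∈ S, okey m k l 0 q.1 = okey m k l 0 r.1) →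
    (∀ q ∈ S, ∀ r ∈ S, okey m k l' 0 q.2 = okey m k l' 0 r.2) → S.card ≤ c

/-- **extraction of a pattern** -/
theorem four_of_large (hm : m.Ok) {s l l' n : ℕ} (hs : sL m k l = s) (hs' : sL m k l' = s)
    (hr : 0 < rL m k l) (hr' : 0 < rL m k l') {w : Key → ℕ} (hw : Rg m k l w)
    (hw' : Rg m k l' w) (z z' : Fin 3 → ℕ)
    (hL : LabH m k l l' w n z z' ⊆ LabJ m k l l' w n z z') {c M : ℕ}
    (hc : ConstLe m k l l' c) (hM : c < M + 1)
    (hbig : (M + 1) ^ 16 ≤ (LabH m k l l' w n z z').card) : Four m k s l l' n z z' M w := by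
  classical
  obtain ⟨T0, hT0, hcard, hhit, hinj⟩ := exists_T0 hm hs hs' hr hr' hw hw' z z' _ hL
  obtain ⟨C, C', b, b', T, hT, hTc, hpat⟩ := exists_PatE (ι := Unit)
    (fun (t : HT) _ => t.2.1.1 0) (fun (t : HT) _ => t.2.1.2 0)
    (fun t : HT => okey m k l 0 t.1.1) (fun t : HT => okey m k l' 0 t.1.2) T0 (M + 1)
    (by omega) (by
      rw [hcard]
      simpa using hbig)
  have hsub := hT.trans hT0
  have hY : ∀ t ∈ T, t.1 ∈ LabJ m k l l' w n z z' ∧ t.2.1.1 ∈ Y0 m k s ∧ t.2.1.2 ∈ Y0 m k s ∧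
      t.2.2 ∈ BS m k l ×ˢ BS m k l' := by
    intro t ht
    have h1 := hsub ht
    rw [mem_product, mem_product, mem_product] at h1
    exact ⟨h1.1, h1.2.1.1, h1.2.1.2, h1.2.2⟩
  have hne : T.Nonempty := by
    rw [← card_pos, hTc]
    exact Nat.succ_pos M
  obtain ⟨t0, ht0⟩ := hne
  have hh : ∀ t ∈ T, HitG m k s l l' w n w t := fun t ht => hhit t (hT ht)
  rcases Bool.eq_false_or_eq_true b with hb | hb
  · -- outer keys of the left side different
    have ho := hpat.odl hb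
    left
    by_cases hC : () ∈ C'
    · left
      have hcst := hpat.cr () hC
      refine ⟨t0.2.1.2 0, lt_QF (hY t0 ht0).2.2.1, T, ?_, hTc, hh, ?_⟩
      · intro t ht
        obtain ⟨h1, h2, h3, h4⟩ := hY t ht
        rw [mem_product, mem_product, mem_product]
        exact ⟨h1, ⟨h2, mem_Yv h3 (hcst t ht t0 ht0)⟩, h4⟩
      · intro t ht t2 ht2 htt
        exact ⟨Or.inr (Or.inl (fun h => htt (ho ht ht2 h))), Or.inl fam_three⟩
    · right
      have hdl := hpat.dr () hC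
      refine ⟨T, hsub, hTc, hh, ?_⟩
      intro t ht t2 ht2 htt
      refine ⟨Or.inr (Or.inl (fun h => htt (ho ht ht2 h))), Or.inr (Or.inr ⟨0, by simp [rk3], ?_⟩)⟩
      exact fun h => htt (hdl ht ht2 h)
  · rcases Bool.eq_false_or_eq_true b' with hb' | hb'
    · -- outer keys of the right side different
      have ho := hpat.odr hb'
      right
      by_cases hC : () ∈ C
      · left
        have hcst := hpat.cl () hC
        refine ⟨t0.2.1.1 0, lt_QF (hY t0 ht0).2.1, T, ?_, hTc, hh, ?_⟩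
        · intro t ht
          obtain ⟨h1, h2, h3, h4⟩ := hY t ht
          rw [mem_product, mem_product, mem_product]
          exact ⟨h1, ⟨mem_Yv h2 (hcst t ht t0 ht0), h3⟩, h4⟩
        · intro t ht t2 ht2 htt
          exact ⟨Or.inl fam_three, Or.inr (Or.inl (fun h => htt (ho ht ht2 h)))⟩
      · right
        have hdl := hpat.dl () hC
        refine ⟨T, hsub, hTc, hh, ?_⟩
        intro t ht t2 ht2 htt
        refine ⟨Or.inr (Or.inr ⟨0, by simp [rk3], ?_⟩),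
          Or.inr (Or.inl (fun h => htt (ho ht ht2 h)))⟩
        exact fun h => htt (hdl ht ht2 h)
    · -- both constant
      exfalso
      have h1 := hpat.ocl hb
      have h2 := hpat.ocr hb'
      have h3 : (T.image Prod.fst).card = T.card := card_image_of_injOn (hinj.mono (by exact_mod_cast hT))
      have h4 := hc w n z z' (T.image Prod.fst) (by
        intro g hg
        rw [mem_image] at hg
        obtain ⟨t, ht, rfl⟩ := hg
        exact (hY t ht).1) (by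
        intro q hq r hr
        rw [mem_image] at hq hr
        obtain ⟨t, ht, rfl⟩ := hq
        obtain ⟨t2, ht2, rfl⟩ := hr
        exact h1 t ht t2 ht2) (by
        intro q hq r hr
        rw [mem_image] at hq hr
        obtain ⟨t, ht, rfl⟩ := hq
        obtain ⟨t2, ht2, rfl⟩ := hr
        exact h2 t ht t2 ht2)
      omega

end Pool.Agent.Helper87.OUT2g
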