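import Pool.Agent.Helper87.OUT2g.Four
import Pool.Agent.Helper25.T5g.UpNum
import Pool.Agent.Helper25.T5g.Void
import Pool.Agent.Helper25.T5g.Mov
import Pool.Agent.Helper75.T5g.Up
import Pool.Agent.Helper84.T5g.Top
import Pool.Agent.Helper30.T5g.BigQF
import Pool.Agent.Helper99.T5g.OkF

/-!
# T5g, line 5: the hits with given main vectors, for pairs above the joint front
-/

set_option autoImplicit false

namespace Pool.Agent.Helper87.OUT2g

open Pool.Agent.Helper87.OUT2 (OSide Hit Dj vals card_vals out_bound)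
open Finset Pool.Agent.Helper84.T5g Pool.Agent.Helper57.T5
open Pool.Agent.Helper37.T5g Pool.Agent.Helper39.T5
open Pool.Agent.Helper5.ET (bb mask era)
open Pool.Agent.Helper30.T5g (QF QT RT PZ ez NL BP)
open Pool.Agent.Helper22.HW
open Pool.Agent.Helper30.T5g (pz)
open Pool.Agent.Helper27.T4 (NN MM fx NN_fx_mul MM_pos NN_pos)
open Pool.Agent.Helper42.T5.Pr
open Pool.Agent.Helper22.SL (rk3)
open Pool.Agent.Helper99.T5g (OkF)

/-- the deterministic statements on labels -/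
structure LHyp : Prop where
  sub : ∀ {m : Sq} {k l l' : ℕ}, m.Ok → l' ≤ l → bb 0 ≤ mL m k l → bb 0 ≤ mL m k l' →
    sL m k l' = sL m k l → ∀ (w : Key → ℕ) (n : ℕ) (z z' : Fin 3 → ℕ),
    LabH m k l l' w n z z' ⊆ LabJ m k l l' w n z z'
  card : ∀ {m : Sq} {k l l' : ℕ}, m.Ok → l' ≤ l → bb 0 ≤ mL m k l → bb 0 ≤ mL m k l' →
    sL m k l' = sL m k l → ∀ (w : Key → ℕ) (n : ℕ) (z z' : Fin 3 → ℕ),
    (LabJ m k l l' w n z z').card ≤ LB m k l l'
  cst : ∀ {m : Sq} {k l l' : ℕ}, m.Ok → l' ≤ l → bb 0 ≤ mL m k l → bb 0 ≤ mL m k l' →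
    sL m k l' = sL m k l → ∀ (w : Key → ℕ) (n : ℕ) (z z' : Fin 3 → ℕ),
    ∀ S ⊆ LabJ m k l l' w n z z',
    (∀ i : Fin 4, aJ m k (sL m k l) l (Sum.inr i) = aJ m k (sL m k l) l' (Sum.inr i) ∨
      ((∀ q ∈ S, ∀ r ∈ S, q.1 (Sum.inr i) = r.1 (Sum.inr i)) ∧
        ∀ q ∈ S, ∀ r ∈ S, q.2 (Sum.inr i) = r.2 (Sum.inr i))) →
    S.card ≤ ∏ i : Fin 4, (2 * pJ k (sL m k l) (Sum.inr i))

variable {m : Sq} {k : ℕ}

/-! ## constants -/

theorem pJ_inr_le (k s : ℕ) (i : Fin 4) : pJ k s (Sum.inr i) ≤ BP k := by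
  refine Fin.cases ?_ (fun f => ?_) i
  · exact (Pool.Agent.Helper30.T5g.buf_lt_BP k).le
  · exact Pool.Agent.Helper30.T5g.pz_le k (s + 1) f

theorem BP_pos (k : ℕ) : 0 < BP k :=
  lt_of_le_of_lt (Nat.zero_le _) (Pool.Agent.Helper30.T5g.buf_lt_BP k)

/-- a bound for the numbers of labels which are not random -/
noncomputable def C3 (k : ℕ) : ℕ := (2 * BP k) ^ 8

theorem C3_pos (k : ℕ) : 0 < C3 k := pow_pos (Nat.mul_pos (by norm_num) (BP_pos k)) 8

/-- the bound in the constant case -/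
theorem C3_le {m : Sq} (hm : OkF m) : C3 m.k ≤ 2 ^ (2 * m.q 0) := by
  have h1 := hm.BP16_le
  have h2 : (2 * BP m.k) ^ 4 ≤ (2 ^ 40 * BP m.k) ^ 16 := by
    have h3 := BP_pos m.k
    calc (2 * BP m.k) ^ 4 ≤ (2 ^ 40 * BP m.k) ^ 4 :=
          Nat.pow_le_pow_left (Nat.mul_le_mul_right _ (by norm_num)) 4
      _ ≤ _ := Nat.pow_le_pow_right (by omega) (by omega)
  unfold C3
  calc (2 * BP m.k) ^ 8 = ((2 * BP m.k) ^ 4) ^ 2 := by rw [← pow_mul]
    _ ≤ (2 ^ m.q 0) ^ 2 := Nat.pow_le_pow_left (h2.trans h1) 2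
    _ = 2 ^ (2 * m.q 0) := by
        rw [← pow_mul]
        congr 1
        ring

theorem prod_two_le (k s : ℕ) : ∏ i : Fin 4, (2 * pJ k s (Sum.inr i)) ≤ C3 k := by
  have h1 : ∏ i : Fin 4, (2 * pJ k s (Sum.inr i)) ≤ ∏ _i : Fin 4, (2 * BP k) :=
    Finset.prod_le_prod' (fun i _ => Nat.mul_le_mul_left _ (pJ_inr_le k s i))
  refine h1.trans ?_
  rw [prod_const, card_univ, Fintype.card_fin]
  have := BP_pos k
  exact Nat.pow_le_pow_right (by omega) (by norm_num)

theorem prod_sq_le (k s : ℕ) : ∏ i : Fin 4, pJ k s (Sum.inr i) ^ 2 ≤ C3 k := by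
  have h1 : ∏ i : Fin 4, pJ k s (Sum.inr i) ^ 2 ≤ ∏ _i : Fin 4, (2 * BP k) ^ 2 :=
    Finset.prod_le_prod' (fun i _ => Nat.pow_le_pow_left (by
      have := pJ_inr_le k s i
      omega) 2)
  refine h1.trans ?_
  rw [prod_const, card_univ, Fintype.card_fin, ← pow_mul]
  exact le_rfl

theorem constLe_of (hL : LHyp) (hm : m.Ok) {l l' : ℕ} (hll : l' ≤ l) (hbb : bb 0 ≤ mL m k l)
    (hbb' : bb 0 ≤ mL m k l') (hN : Near m k l' l) (hs : Same m k l' l) :
    ConstLe m k l l' (C3 k) := by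
  intro w n z z' S hS h1 h2
  refine (hL.cst hm hll hbb hbb' hs w n z z' S hS (fun i => ?_)).trans (prod_two_le k _)
  by_cases ha : aJ m k (sL m k l) l (Sum.inr i) = aJ m k (sL m k l) l' (Sum.inr i)
  · exact Or.inl ha
  · right
    obtain ⟨g1, g2⟩ := Pool.Agent.Helper25.T5g.mov_keyed hm hll hN hs i ha
    have e : ∀ x : JF → ℕ, okey m k l 0 x (Sum.inr i) = x (Sum.inr i) := by
      intro x
      unfold okey
      rw [if_pos rfl]
      unfold maskJ
      rw [if_pos g1]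
    have e' : ∀ x : JF → ℕ, okey m k l' 0 x (Sum.inr i) = x (Sum.inr i) := by
      intro x
      unfold okey
      rw [if_pos rfl]
      unfold maskJ
      rw [if_pos g2]
    refine ⟨fun q hq r hr => ?_, fun q hq r hr => ?_⟩
    · rw [← e q.1, ← e r.1, h1 q hq r hr]
    · rw [← e' q.2, ← e' r.2, h2 q hq r hr]

/-! ## the numbers of a pair -/

theorem nb_of (hF : OkF m) : ∃ l0 : ℕ, ∀ l l', l0 ≤ l' → l' ≤ l →
    CaseUp m m.k l' l → ¬ Vd m m.k l' l →
    l ≠ l' ∧ 1 ≤ SS m (sL m m.k l) ∧ SS m (sL m m.k l) ≤ l ∧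
      Nb m m.k (sL m m.k l) l l' (LB m m.k l l') (SS m (sL m m.k l) : ℝ) := by
  have hm := hF.toOk
  have hQ := Pool.Agent.Helper30.T5g.bigQ_of_okF hF
  obtain ⟨l1, h1⟩ := Pool.Agent.Helper75.T5g.log_LB_le hF
  set k := m.k with hkd
  obtain ⟨l2, h2⟩ := Pool.Agent.Helper25.T5g.exists_up_num hm k 1000
  refine ⟨l1 + l2, fun l l' hl' hll hc hv => ?_⟩
  obtain ⟨hN, hs, hup⟩ := hc
  obtain ⟨a1, a2, a3, a4, a5, a6, a7⟩ := h2 l (by omega)
  obtain ⟨b1, b2, b3, b4, b5, b6, b7⟩ := h2 l' (by omega)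
  unfold Same at hs
  rw [hs] at b3 b4 b5 b6 b7
  push_cast at a4 a5 b4 b5
  set s := sL m k l with hsd
  have hez := Pool.Agent.Helper30.T5g.lt_ez_sub hm s l'
  have hef : ef m k l' 0 = ez m s l' := by
    unfold ef
    rw [hs, Nat.sub_zero]
  rw [hef] at hup
  have hdist : SS m s ≤ 100 * (l - l') := by omega
  have hS1 : 1000 ≤ SS m s := by exact_mod_cast a4
  have hBWn : ∀ x : ℝ, 0 ≤ x → 1000 * x ≤ Real.exp (1 / 1000 * (SS m s : ℝ)) →
      x ≤ Real.exp ((SS m s : ℝ) / 1000) := by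
    intro x hx0 hx
    rw [show (SS m s : ℝ) / 1000 = 1 / 1000 * (SS m s : ℝ) by ring]
    linarith
  refine ⟨by omega, by omega, Pool.Agent.Helper25.T5g.SS_sL_le hm a1 a2, ?_⟩
  have hq1 : Real.exp (SS m s : ℝ) ≤ Q1 m k s := by
    rw [Q1_eq]
    have h3 := a6 1
    have h4 : (1 : ℝ) ≤ QF m k s 2 := by
      exact_mod_cast Pool.Agent.Helper30.T5g.QF_pos m k s 2
    push_cast
    calc Real.exp (SS m s : ℝ) ≤ (QF m k s 1 : ℝ) := h3
      _ ≤ QF m k s 1 * QF m k s 2 := le_mul_of_one_le_right (Nat.cast_nonneg _) h4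
  have hrat := Pool.Agent.Helper25.T5g.front_ratio hm a1 b1 hs a3 hdist
  have e1 : M0 m k l = Jn m k s (ez m (s - 1) l) := by
    rw [M0_eq]
    rfl
  have e2 : M0 m k l' = Jn m k s (ez m (s - 1) l') := by
    rw [M0_eq]
    show Jn m k (sL m k l') (ez m (sL m k l' - 1) l') = _
    rw [hs]
  refine ⟨a4, ?_, hBWn _ (Nat.cast_nonneg _) a5, hBWn _ (Nat.cast_nonneg _) b5, ?_, a6 0, hq1,
    a7, ?_, ?_, ?_⟩
  · have h3 := h1 l l' (by omega) hll hN hs hv
    rw [← hsd] at h3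
    have h4 : 0 < LB m k l l' := by
      unfold LB
      exact Finset.prod_pos (fun i _ => Nat.mul_pos (by norm_num) (pow_pos (pJ_prime k _ _).pos _))
    rw [← Real.exp_log (by exact_mod_cast h4 : (0 : ℝ) < LB m k l l')]
    exact Real.exp_le_exp.2 h3
  · rw [e1, e2]
    refine hrat.trans (le_of_eq ?_)
    rw [show -((SS m s : ℝ) / 10) = -(1 / 10 * (SS m s : ℝ)) by ring]
  · rw [e1]
    exact Nat.Coprime.pow_right _
      (Pool.Agent.Helper44.T5g.coprime_Jn_pz (t := 0) (Nat.zero_le _) (Nat.zero_le _) 0)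
  · rw [e1]
    exact Pool.Agent.Helper44.T5g.Jn_pos _ _ _ _
  · rw [e2]
    exact Pool.Agent.Helper44.T5g.Jn_pos _ _ _ _

/-! ## the labels -/

/-- the number of hits of a pattern -/
noncomputable def Mn (m : Sq) (k l : ℕ) : ℕ := 4000 * l / SS m (sL m k l) + C3 k

theorem C3_le_Mn (m : Sq) (k l : ℕ) : C3 k ≤ Mn m k l := Nat.le_add_left _ _

theorem Mn_big {l : ℕ} (h : 1 ≤ SS m (sL m k l)) :
    4000 * (l : ℝ) ≤ Mn m k l * (SS m (sL m k l) : ℝ) := by
  have h1 : 4000 * l ≤ Mn m k l * SS m (sL m k l) := by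
    have h2 := Nat.lt_div_mul_add (a := 4000 * l) (b := SS m (sL m k l)) h
    have h3 := C3_pos k
    unfold Mn
    nlinarith
  exact_mod_cast h1

theorem labH_small {l l' n : ℕ} {w : Key → ℕ} (hm : m.Ok) (hbb : bb 0 ≤ mL m k l)
    (hbb' : bb 0 ≤ mL m k l') (hll : l' ≤ l) (hw : Rg m k l w) (hw' : Rg m k l' w)
    {z z' : Fin 3 → ℕ} (h : 0 < (LabH m k l l' w n z z').card) :
    n ∈ range (34 * NL m k l) ∧ z ∈ Fintype.piFinset (fun _ : Fin 3 => range (Bd m k l)) ∧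
      z' ∈ Fintype.piFinset (fun _ : Fin 3 => range (Bd m k l')) := by
  rw [card_pos] at h
  obtain ⟨g, hg⟩ := h
  unfold LabH at hg
  rw [mem_image] at hg
  obtain ⟨q, hq, _⟩ := hg
  rw [mem_filter] at hq
  obtain ⟨hq, hz, hz'⟩ := hq
  unfold Hts at hq
  rw [mem_filter, mem_product] at hq
  obtain ⟨⟨q1, q2⟩, hsum⟩ := hq
  have x1 : q.1.1.1 ∈ XJ m k l := by
    unfold Pm at q1
    rw [mem_product, mem_product] at q1
    exact q1.1.1
  have x2 : q.2.1.1 ∈ XJ m k l' := by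
    unfold Pm at q2
    rw [mem_product, mem_product] at q2
    exact q2.1.1
  refine ⟨?_, ?_, ?_⟩
  · rw [mem_range]
    have h1 := hw _ (val_mem q1)
    have h2 := hw' _ (val_mem q2)
    have h3 := Pool.Agent.Helper30.T5g.NL_mono m k hll
    omega
  · rw [Fintype.mem_piFinset]
    intro f
    rw [mem_range, ← hz f]
    exact Pool.Agent.Helper54.T5g.XJ_lt hm hbb x1 _
  · rw [Fintype.mem_piFinset]
    intro f
    rw [mem_range, ← hz' f]
    exact Pool.Agent.Helper54.T5g.XJ_lt hm hbb' x2 _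

/-- the union bound in numbers -/
theorem union_num {l : ℕ} {S x y y' q : ℝ} {M : ℕ} (hl : 0 ≤ (l : ℝ)) (hS : S ≤ l)
    (hx0 : 0 ≤ x) (hx : x ≤ Real.exp (16 * l)) (hy0 : 0 ≤ y) (hy : y ≤ Real.exp (16 * l))
    (hy0' : 0 ≤ y') (hy' : y' ≤ Real.exp (16 * l)) (hM : 4000 * (l : ℝ) ≤ M * S)
    (hq : q = Real.exp (43 * S) * Real.exp (-(S / 20)) ^ M) :
    x * (y ^ 3 * y' ^ 3) * q ≤ Real.exp (-(l : ℝ)) := by
  have e1 : Real.exp (-(S / 20)) ^ M = Real.exp (-(M * S / 20)) := by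
    rw [← Real.exp_nat_mul]
    congr 1
    ring
  have h1 : q ≤ Real.exp (43 * l - 200 * l) := by
    rw [hq, e1, ← Real.exp_add]
    refine Real.exp_le_exp.2 ?_
    linarith
  have hq0 : 0 ≤ q := by
    rw [hq]
    positivity
  have h2 : y ^ 3 ≤ Real.exp (48 * l) := by
    calc y ^ 3 ≤ Real.exp (16 * l) ^ 3 := pow_le_pow_left₀ hy0 hy 3
      _ = Real.exp (48 * l) := by
          rw [← Real.exp_nat_mul]
          congr 1
          push_cast
          ring
  have h3 : y' ^ 3 ≤ Real.exp (48 * l) := by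
    calc y' ^ 3 ≤ Real.exp (16 * l) ^ 3 := pow_le_pow_left₀ hy0' hy' 3
      _ = Real.exp (48 * l) := by
          rw [← Real.exp_nat_mul]
          congr 1
          push_cast
          ring
  calc x * (y ^ 3 * y' ^ 3) * q
      ≤ Real.exp (16 * l) * (Real.exp (48 * l) * Real.exp (48 * l)) *
        Real.exp (43 * l - 200 * l) := by
        refine mul_le_mul (mul_le_mul hx (mul_le_mul h2 h3 (by positivity) (by positivity))
          (by positivity) (by positivity)) h1 hq0 (by positivity)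
    _ = Real.exp (16 * l + (48 * l + 48 * l) + (43 * l - 200 * l)) := by
        rw [← Real.exp_add, ← Real.exp_add, ← Real.exp_add]
    _ ≤ Real.exp (-(l : ℝ)) := Real.exp_le_exp.2 (by linarith)

/-- **the labels**, probability -/
theorem lab_prob (hL : LHyp) (hF : OkF m) : ∃ l0 : ℕ, ∀ l l', l0 ≤ l' → l' ≤ l →
    CaseUp m m.k l' l → ∀ K : Finset Key, keysOf m m.k l ⊆ K → keysOf m m.k l' ⊆ K →
    PrLe (Mk m m.k) K (fun w => ∃ (n : ℕ) (z z' : Fin 3 → ℕ),
      (Mn m m.k l + 1) ^ 16 < (LabH m m.k l l' w n z z').card) (Real.exp (-(l : ℝ))) := by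
  have hm := hF.toOk
  have hQ := Pool.Agent.Helper30.T5g.bigQ_of_okF hF
  obtain ⟨l1, h1⟩ := nb_of hF
  have hk : 0 < m.k := lt_of_lt_of_le (by norm_num) hm.k2
  set k := m.k with hkd
  obtain ⟨l2, h2⟩ := Pool.Agent.Helper25.T5g.exists_up_num hm k 1000
  obtain ⟨l3, h3⟩ := Pool.Agent.Helper25.T5g.exists_NL_exp hm k
  obtain ⟨l4, h4⟩ := Pool.Agent.Helper27.T5g.exists_AA_range hm k
  refine ⟨l1 + l2 + l3 + l4 + 100, fun l l' hl' hll hc K hK hK' => ?_⟩
  have hRg : ∀ w, Rg m k l w := fun w a ha => (h4 l (by omega) w a ha).2.1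
  have hRg' : ∀ w, Rg m k l' w := fun w a ha => (h4 l' (by omega) w a ha).2.1
  obtain ⟨a1, a2, a3, a4, _⟩ := h2 l (by omega)
  obtain ⟨b1, _⟩ := h2 l' (by omega)
  have hr : 0 < rL m k l := by
    have := Pool.Agent.Helper27.T5g.rL_bounds hm k l
    omega
  have hr' : 0 < rL m k l' := by
    have := Pool.Agent.Helper27.T5g.rL_bounds hm k l'
    omega
  have hN := hc.1
  have hs : sL m k l' = sL m k l := hc.2.1
  by_cases hv : Vd m k l' l
  · refine PrLe_false (fun r _ hw => ?_) (Real.exp_pos _).le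
    obtain ⟨n, z, z', hbig⟩ := hw
    have h5 := Pool.Agent.Helper25.T5g.void hm hs (w := ext K r)
      (fun a ha => (h4 l' (by omega) _ a ha).2.2) hv n z z'
    have h6 := h5.trans (prod_sq_le k _)
    have h7 : C3 k ≤ (Mn m k l + 1) ^ 16 := by
      refine le_trans ?_ (Nat.le_self_pow (by norm_num) _)
      have := C3_le_Mn m k l
      omega
    omega
  · obtain ⟨c1, c2, c3, hNb⟩ := h1 l l' (by omega) hll hc hv
    have hev : ∀ i ∈ range (34 * NL m k l) ×ˢ
        ((Fintype.piFinset (fun _ : Fin 3 => range (Bd m k l))) ×ˢ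
          (Fintype.piFinset (fun _ : Fin 3 => range (Bd m k l')))),
        PrLe (Mk m k) K (Four m k (sL m k l) l l' i.1 i.2.1 i.2.2 (Mn m k l))
          (Real.exp (43 * (SS m (sL m k l) : ℝ)) *
            Real.exp (-((SS m (sL m k l) : ℝ) / 20)) ^ (Mn m k l)) := fun i _ =>
      hNb.four hm rfl hs c1 hr hr' a1 b1 i.2.1 i.2.2
        (fun w => hL.card hm hll a1 b1 hs w _ _ _) _ hK hK'
    have hall := PrLe_exists _ hev
    refine PrLe_mono (fun r _ hw => ?_) ?_ hall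
    · obtain ⟨n, z, z', hbig⟩ := hw
      obtain ⟨d1, d2, d3⟩ := labH_small hm a1 b1 hll (hRg _) (hRg' _)
        (lt_of_le_of_lt (Nat.zero_le _) hbig)
      refine ⟨(n, (z, z')), ?_, ?_⟩
      · rw [mem_product, mem_product]
        exact ⟨d1, d2, d3⟩
      · exact four_of_large hm rfl hs hr hr' (hRg _) (hRg' _) z z'
          (hL.sub hm hll a1 b1 hs _ _ _ _) (constLe_of hL hm hll a1 b1 hN hs)
          (Nat.lt_succ_of_le (C3_le_Mn m k l)) hbig.le
    · rw [sum_const, card_product, card_product, Fintype.card_piFinset, Fintype.card_piFinset,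
        card_range, card_range, card_range, prod_const, prod_const, card_univ, Fintype.card_fin,
        nsmul_eq_mul]
      push_cast
      have hl100 : (100 : ℝ) ≤ l := by exact_mod_cast (show 100 ≤ l by omega)
      have hl100' : (100 : ℝ) ≤ l' := by exact_mod_cast (show 100 ≤ l' by omega)
      have hll' : (l' : ℝ) ≤ l := by exact_mod_cast hll
      have e36 : ∀ x : ℝ, 100 ≤ x → 36 * Real.exp (15 * x) ≤ Real.exp (16 * x) := by
        intro x hx
        have h5 : Real.exp (16 * x) = Real.exp x * Real.exp (15 * x) := by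
          rw [← Real.exp_add]
          congr 1
          ring
        rw [h5]
        refine mul_le_mul_of_nonneg_right ?_ (Real.exp_pos _).le
        have := Real.add_one_le_exp x
        linarith
      have one_le : ∀ x : ℝ, 100 ≤ x → 1 ≤ Real.exp (15 * x) := by
        intro x hx
        rw [← Real.exp_zero]
        exact Real.exp_le_exp.2 (by linarith)
      have n1 := h3 l (by omega)
      have n2 := h3 l' (by omega)
      have n3 : Real.exp (16 * (l' : ℝ)) ≤ Real.exp (16 * (l : ℝ)) :=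
        Real.exp_le_exp.2 (by linarith)
      refine union_num (S := (SS m (sL m k l) : ℝ)) (by linarith) (by exact_mod_cast c3)
        (by positivity) ?_ (by positivity) ?_ (by positivity) ?_ (Mn_big c2) rfl
      · have := e36 l hl100
        have := one_le l hl100
        linarith
      · unfold Bd
        push_cast
        have := e36 l hl100
        have := one_le l hl100
        linarith
      · unfold Bd
        push_cast
        have := e36 l' hl100'
        have := one_le l' hl100'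
        linarith

/-- the bound for the number of labels as a power -/
theorem Mn_pow : ∃ E : ℕ, ∀ m : Sq, OkF m → ∃ l0 : ℕ, ∀ l, l0 ≤ l →
    (Mn m m.k l + 1) ^ 16 ≤ 2 ^ (E * m.q 0) := by
  obtain ⟨E, h⟩ := Pool.Agent.Helper75.T5g.exists_le_SS_sL
  refine ⟨16 * (E + 10), fun m hm => ?_⟩
  obtain ⟨l0, h⟩ := h m hm
  obtain ⟨l2, h2⟩ := Pool.Agent.Helper25.T5g.exists_up_num hm.toOk m.k 1000
  refine ⟨l0 + l2 + 1, fun l hl => ?_⟩
  have h1 := h l (by omega)
  obtain ⟨_, _, _, a4, _⟩ := h2 l (by omega)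
  have hS : 1000 ≤ SS m (sL m m.k l) := by exact_mod_cast a4
  have hC3 : C3 m.k ≤ 2 ^ (2 * m.q 0) := C3_le hm
  have h3 : 4000 * l / SS m (sL m m.k l) ≤ 2 ^ (12 + E * m.q 0) := by
    refine Nat.div_le_of_le_mul ?_
    calc 4000 * l ≤ 4096 * (2 ^ (E * m.q 0) * SS m (sL m m.k l)) :=
          Nat.mul_le_mul (by norm_num) h1
      _ = SS m (sL m m.k l) * 2 ^ (12 + E * m.q 0) := by
          rw [pow_add]
          ring
  have hq : 400 ≤ m.q 0 := hm.q 0
  have e1 : 2 ^ (12 + E * m.q 0) ≤ 2 ^ ((E + 9) * m.q 0) :=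
    Nat.pow_le_pow_right (by norm_num) (by nlinarith)
  have e2 : 2 ^ (2 * m.q 0) ≤ 2 ^ ((E + 9) * m.q 0) :=
    Nat.pow_le_pow_right (by norm_num) (by nlinarith)
  have e3 : 1 ≤ 2 ^ ((E + 9) * m.q 0) := Nat.one_le_two_pow
  have h4 : Mn m m.k l + 1 ≤ 2 ^ ((E + 10) * m.q 0) := by
    have e4 : 3 ≤ 2 ^ m.q 0 := by
      calc 3 ≤ 2 ^ 2 := by norm_num
        _ ≤ _ := Nat.pow_le_pow_right (by norm_num) (by omega)
    have e5 : 2 ^ ((E + 10) * m.q 0) = 2 ^ ((E + 9) * m.q 0) * 2 ^ m.q 0 := by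
      rw [← pow_add]
      congr 1
      ring
    rw [e5]
    unfold Mn
    nlinarith
  calc (Mn m m.k l + 1) ^ 16 ≤ (2 ^ ((E + 10) * m.q 0)) ^ 16 := Nat.pow_le_pow_left h4 16
    _ = 2 ^ (16 * (E + 10) * m.q 0) := by
        rw [← pow_mul]
        congr 1
        ring

/-! ## the hits with given main vectors -/

/-- hits ≤ labels × leaf -/
theorem cst_le {l l' n : ℕ} {w : Key → ℕ} {z z' : Fin 3 → ℕ} {R : ℕ}
    (hR : ∀ x x' : JF → ℕ, ((Hts m k l l' w n).filter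
      (fun q => q.1.1.1 = x ∧ q.2.1.1 = x')).card ≤ R) :
    ((Hts m k l l' w n).filter
      (fun q => (∀ f, q.1.1.1 (Sum.inl f) = z f) ∧ ∀ f, q.2.1.1 (Sum.inl f) = z' f)).card ≤
      R * (LabH m k l l' w n z z').card := by
  classical
  unfold LabH
  refine card_le_mul_card_image _ R ?_
  intro g _
  refine (card_le_card ?_).trans (hR g.1 g.2)
  intro q hq
  rw [mem_filter, mem_filter] at hq
  obtain ⟨⟨h1, _⟩, h2⟩ := hq
  rw [mem_filter]
  refine ⟨h1, ?_, ?_⟩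
  · rw [← h2]
  · rw [← h2]

/-- **line 5: the hits with given main vectors above the joint front** -/
theorem blk_up_of (hL : LHyp) (hlf : Blk Near LeafC) : Blk CaseUp CstC := by
  obtain ⟨E, m0, hleaf⟩ := hlf
  obtain ⟨E', hMn⟩ := Mn_pow
  refine ⟨E + E', m0, fun m hm hk => ?_⟩
  obtain ⟨K0, c0, m', e2, e3, hA⟩ := hleaf m hm hk
  obtain ⟨l1, hB⟩ := lab_prob hL hm
  obtain ⟨l2, hC⟩ := hMn m hm
  refine ⟨K0 + l1 + l2 + 1, min c0 1, m' + 1, lt_min e2 one_pos, by positivity, ?_⟩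
  intro l l' hl' hll ha hp K hK hK'
  have hl1 : (1 : ℝ) ≤ (l : ℝ) := by exact_mod_cast (show 1 ≤ l by omega)
  have hl0 : (0 : ℝ) < (l : ℝ) := by linarith
  have hA' := hA l l' (by omega) hll ha hp.1 K hK hK'
  have hB' := hB l l' (by omega) hll hp K hK hK'
  refine PrLe_mono (fun r _ hw => ?_) ?_ (PrLe_or hA' hB')
  · generalize ext K r = w at hw ⊢
    by_contra hcon
    rw [not_or] at hcon
    obtain ⟨hn1, hn2⟩ := hcon
    push Not at hn1 hn2
    obtain ⟨c, ⟨n, z, z', rfl⟩, hlt⟩ := hw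
    have h5 := cst_le (m := m) (k := m.k) (l := l) (l' := l') (n := n) (w := w) (z := z)
      (z' := z') (R := 2 ^ (E * m.q 0)) (fun x x' => hn1 _ ⟨n, x, x', rfl⟩)
    have h6 := hn2 n z z'
    have h7 := hC l (by omega)
    have h8 := h5.trans (Nat.mul_le_mul_left _ (h6.trans h7))
    rw [← pow_add, ← add_mul] at h8
    omega
  · have f1 : Real.exp (-((l : ℝ) ^ c0)) ≤ Real.exp (-((l : ℝ) ^ min c0 1)) :=
      Real.exp_le_exp.2 (neg_le_neg (Real.rpow_le_rpow_of_exponent_le hl1 (min_le_left _ _)))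
    have f2 : Real.exp (-(l : ℝ)) ≤ Real.exp (-((l : ℝ) ^ min c0 1)) := by
      refine Real.exp_le_exp.2 (neg_le_neg ?_)
      calc (l : ℝ) ^ min c0 1 ≤ (l : ℝ) ^ (1 : ℝ) :=
            Real.rpow_le_rpow_of_exponent_le hl1 (min_le_right _ _)
        _ = l := Real.rpow_one _
    have f3 := mul_le_mul_of_nonneg_left f1 e3
    linarith

end Pool.Agent.Helper87.OUT2g
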